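import Pool.Agent.H57E.Main

/-!
# The prime counting function is not integrable against `dt / t ^ 2` (MP_e2def7_nt)
-/

set_option autoImplicit false

namespace Pool.Agent.H57E

open N44b300f8 Filter MeasureTheory Set Topology
open scoped ENNReal

theorem pi_meas : Measurable (fun t : ℝ => (Nat.primeCounting ⌊t⌋₊ : ℝ)) :=
  (measurable_from_top (f := fun n : ℕ => (Nat.primeCounting n : ℝ))).comp Nat.measurable_floor

theorem pi_not_integrable (x : ℝ) (hx1 : 1 ≤ x) :
    ¬ IntegrableOn (fun t : ℝ => (Nat.primeCounting ⌊t⌋₊ : ℝ) / t ^ 2) (Ioi x) := by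
  intro h
  have h1 : ∫⁻ t in Ioi x, cnt pri t * den 1 t < ⊤ := by
    have h2 := h.2
    rw [hasFiniteIntegral_iff_ofReal] at h2
    · refine lt_of_le_of_lt (le_of_eq ?_) h2
      apply setLIntegral_congr_fun measurableSet_Ioi
      intro t ht
      have ht0 : 0 < t := lt_of_lt_of_le (by linarith) (le_of_lt ht)
      show cnt pri t * den 1 t = ENNReal.ofReal ((Nat.primeCounting ⌊t⌋₊ : ℝ) / t ^ 2)
      rw [cnt_pri, den, ← ENNReal.ofReal_natCast, ← ENNReal.ofReal_mul (Nat.cast_nonneg _)]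
      congr 1
      rw [one_mul, show (-(1 : ℝ) - 1) = -((2 : ℕ) : ℝ) by norm_num, Real.rpow_neg ht0.le,
        Real.rpow_natCast, div_eq_mul_inv]
    · filter_upwards [] with t
      positivity
  have h3 : ∫⁻ t in Ioi (1 : ℝ), cnt pri t * den 1 t < ⊤ := by
    rw [← Ioc_union_Ioi_eq_Ioi hx1]
    refine (lintegral_union_le _ _ _).trans_lt (ENNReal.add_lt_top.2 ⟨?_, h1⟩)
    calc ∫⁻ t in Ioc 1 x, cnt pri t * den 1 t ≤ ∫⁻ _ in Ioc 1 x, cnt pri x * 1 := by
          apply setLIntegral_mono' measurableSet_Ioc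
          intro t ht
          apply mul_le_mul' (cnt_mono pri ht.2)
          unfold den
          rw [← ENNReal.ofReal_one]
          apply ENNReal.ofReal_le_ofReal
          rw [one_mul]
          exact Real.rpow_le_one_of_one_le_of_nonpos ht.1.le (by linarith)
      _ = cnt pri x * 1 * ENNReal.ofReal (x - 1) := by
          rw [setLIntegral_const, Real.volume_Ioc]
      _ < ⊤ := by
          rw [cnt_pri, mul_one]
          exact ENNReal.mul_lt_top (ENNReal.natCast_lt_top _) ENNReal.ofReal_lt_top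
  rw [layer pri pri_gt one_pos] at h3
  have h4 := ENNReal.summable_toReal h3.ne
  have h5 : Summable (fun p : Nat.Primes => ((p : ℕ) : ℝ) ^ (-1 : ℝ)) := by
    refine h4.congr fun p => ?_
    rw [ENNReal.toReal_ofReal (Real.rpow_nonneg (by linarith [pri_gt p]) _)]
    rfl
  rw [Nat.Primes.summable_rpow] at h5
  linarith

/-- For every `ε > 0`, a `1`-separated sequence has fewer than `(1 + ε) π(t)` terms up to `t`, for
arbitrarily large `t`. -/
theorem main_eps {a : ℕ → ℝ} (h0 : 1 < a 0) (hm : StrictMono a) (hs : Erdos951Prop a)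
    (ε : ℝ) (hε : 0 < ε) (x₀ : ℝ) :
    ∃ t : ℝ, x₀ ≤ t ∧
      (({i : ℕ | a i ≤ t}.ncard : ℕ) : ℝ) < (1 + ε) * (Nat.primeCounting ⌊t⌋₊ : ℝ) := by
  obtain ⟨t, ht, h1⟩ := main h0 hm hs (fun t => ε * (Nat.primeCounting ⌊t⌋₊ : ℝ))
    (pi_meas.const_mul ε) (fun t => by positivity) (fun x hx hI => by
      apply pi_not_integrable x hx
      have h2 := Integrable.const_mul hI ε⁻¹
      refine h2.congr (Eventually.of_forall fun t => ?_)
      show ε⁻¹ * (ε * (Nat.primeCounting ⌊t⌋₊ : ℝ) / t ^ 2) = (Nat.primeCounting ⌊t⌋₊ : ℝ) / t ^ 2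
      field_simp) x₀
  exact ⟨t, ht, by rw [add_mul, one_mul]; exact h1⟩

end Pool.Agent.H57E
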