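import Mathlib
import Pool.Prelude.Def_F_f983ba18

/-!
# Reciprocal sums of 1-separated sequences (MP_e2def7_nt)
-/

set_option autoImplicit false

namespace Pool.Agent.H57E

open Finset N44b300f8 Filter

private theorem bi_add (a : ℕ → ℝ) (k l : ℕ →₀ ℕ) :
    beurlingInteger a (k + l) = beurlingInteger a k * beurlingInteger a l := by
  simp [beurlingInteger, Finsupp.prod_add_index', pow_add]

private theorem bi_single (a : ℕ → ℝ) (i : ℕ) :
    beurlingInteger a (Finsupp.single i 1) = a i := by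
  simp [beurlingInteger]

private theorem bi_zero (a : ℕ → ℝ) : beurlingInteger a 0 = 1 := by
  simp [beurlingInteger]

private theorem bi_one_le {a : ℕ → ℝ} (h1 : ∀ i, 1 < a i) (k : ℕ →₀ ℕ) :
    1 ≤ beurlingInteger a k := by
  unfold beurlingInteger Finsupp.prod
  exact Finset.prod_induction _ (fun x : ℝ => 1 ≤ x)
    (fun x y hx hy => one_le_mul_of_one_le_of_one_le hx hy) le_rfl
    (fun i _ => one_le_pow₀ (h1 i).le)

/-- the weight of an exponent sequence -/
private noncomputable def wt (a : ℕ → ℝ) (σ : ℝ) (k : ℕ →₀ ℕ) : ℝ := beurlingInteger a k ^ (-σ)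

private theorem wt_nonneg {a : ℕ → ℝ} (h1 : ∀ i, 1 < a i) (σ : ℝ) (k : ℕ →₀ ℕ) :
    0 ≤ wt a σ k := Real.rpow_nonneg (by linarith [bi_one_le h1 k]) _

private theorem floor_inj {a : ℕ → ℝ} (h1 : ∀ i, 1 < a i) (hs : Erdos951Prop a) :
    Function.Injective (fun k : ℕ →₀ ℕ => ⌊beurlingInteger a k⌋₊) := by
  intro k l hkl
  by_contra hne
  have h2 := hs k l hne
  have h3 := bi_one_le h1 k
  have h4 := bi_one_le h1 l
  simp only at hkl
  have h5 := Nat.floor_le (by linarith : 0 ≤ beurlingInteger a k)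
  have h6 := Nat.lt_floor_add_one (beurlingInteger a k)
  have h7 := Nat.floor_le (by linarith : 0 ≤ beurlingInteger a l)
  have h8 := Nat.lt_floor_add_one (beurlingInteger a l)
  rw [hkl] at h5 h6
  have h9 : |beurlingInteger a k - beurlingInteger a l| < 1 := by
    rw [abs_lt]
    constructor <;> linarith
  linarith

/-- the zeta function as a real series -/
noncomputable def ze (σ : ℝ) : ℝ := ∑' n : ℕ, (n : ℝ) ^ (-σ)

private theorem ze_summable {σ : ℝ} (hσ : 1 < σ) : Summable (fun n : ℕ => (n : ℝ) ^ (-σ)) :=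
  Real.summable_nat_rpow.2 (by linarith)

private theorem wt_le {a : ℕ → ℝ} (h1 : ∀ i, 1 < a i) {σ : ℝ} (hσ : 1 < σ) (k : ℕ →₀ ℕ) :
    wt a σ k ≤ ((⌊beurlingInteger a k⌋₊ : ℕ) : ℝ) ^ (-σ) := by
  have h3 := bi_one_le h1 k
  have h4 : 1 ≤ ⌊beurlingInteger a k⌋₊ := Nat.le_floor (by simpa using h3)
  have h5 : (1 : ℝ) ≤ (⌊beurlingInteger a k⌋₊ : ℕ) := by exact_mod_cast h4
  exact Real.rpow_le_rpow_of_nonpos (by linarith) (Nat.floor_le (by linarith)) (by linarith)

private theorem wt_summable {a : ℕ → ℝ} (h1 : ∀ i, 1 < a i) (hs : Erdos951Prop a) {σ : ℝ}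
    (hσ : 1 < σ) : Summable (wt a σ) :=
  Summable.of_nonneg_of_le (wt_nonneg h1 σ) (wt_le h1 hσ)
    ((ze_summable hσ).comp_injective (floor_inj h1 hs))

private theorem wt_tsum_le {a : ℕ → ℝ} (h1 : ∀ i, 1 < a i) (hs : Erdos951Prop a) {σ : ℝ}
    (hσ : 1 < σ) : ∑' k, wt a σ k ≤ ze σ := by
  have h2 := (ze_summable hσ).comp_injective (floor_inj h1 hs)
  calc ∑' k, wt a σ k
      ≤ ∑' k : ℕ →₀ ℕ, ((⌊beurlingInteger a k⌋₊ : ℕ) : ℝ) ^ (-σ) :=
        (wt_summable h1 hs hσ).tsum_le_tsum (wt_le h1 hσ) h2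
    _ ≤ ze σ := tsum_comp_le_tsum_of_inj (ze_summable hσ)
        (fun n => Real.rpow_nonneg (Nat.cast_nonneg n) _) (floor_inj h1 hs)

private theorem wt_shift {a : ℕ → ℝ} (h1 : ∀ i, 1 < a i) (σ : ℝ) (k : ℕ →₀ ℕ) (i : ℕ) :
    wt a σ (k + Finsupp.single i 1) = a i ^ (-σ) * wt a σ k := by
  unfold wt
  rw [bi_add, bi_single, Real.mul_rpow (by linarith [bi_one_le h1 k]) (by linarith [h1 i]),
    mul_comm]

open Classical in
private theorem prod_formula {a : ℕ → ℝ} (h1 : ∀ i, 1 < a i) (hs : Erdos951Prop a) {σ : ℝ}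
    (hσ : 1 < σ) (s : Finset ℕ) :
    ∑' k, (if ∀ j ∈ s, k j = 0 then wt a σ k else 0) =
      (∏ i ∈ s, (1 - a i ^ (-σ))) * ∑' k, wt a σ k := by
  have hsum : ∀ (P : (ℕ →₀ ℕ) → Prop) [DecidablePred P],
      Summable (fun k => if P k then wt a σ k else 0) := by
    intro P _
    refine Summable.of_nonneg_of_le (fun k => ?_) (fun k => ?_) (wt_summable h1 hs hσ)
    · split_ifs
      · exact wt_nonneg h1 σ k
      · exact le_refl _
    · split_ifs
      · exact le_refl _
      · exact wt_nonneg h1 σ k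
  induction s using Finset.induction_on with
  | empty => simp
  | insert i s hi ih =>
    rw [Finset.prod_insert hi, mul_assoc, ← ih]
    have h2 : ∀ k : ℕ →₀ ℕ, (if ∀ j ∈ s, k j = 0 then wt a σ k else 0) =
        (if ∀ j ∈ insert i s, k j = 0 then wt a σ k else 0) +
        (if (∀ j ∈ s, k j = 0) ∧ k i ≠ 0 then wt a σ k else 0) := by
      intro k
      by_cases h3 : ∀ j ∈ s, k j = 0
      · by_cases h4 : k i = 0
        · have h5 : ∀ j ∈ insert i s, k j = 0 := by
            intro j hj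
            rcases Finset.mem_insert.1 hj with rfl | hj
            · exact h4
            · exact h3 j hj
          rw [if_pos h3, if_pos h5, if_neg (by simp [h4]), add_zero]
        · have h5 : ¬ ∀ j ∈ insert i s, k j = 0 := fun h6 => h4 (h6 i (by simp))
          rw [if_pos h3, if_neg h5, if_pos ⟨h3, h4⟩, zero_add]
      · have h5 : ¬ ∀ j ∈ insert i s, k j = 0 := fun h6 =>
          h3 fun j hj => h6 j (Finset.mem_insert_of_mem hj)
        rw [if_neg h3, if_neg h5, if_neg (fun h => h3 h.1), add_zero]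
    have h3 : ∑' k : ℕ →₀ ℕ, (if (∀ j ∈ s, k j = 0) ∧ k i ≠ 0 then wt a σ k else 0) =
        a i ^ (-σ) * ∑' k : ℕ →₀ ℕ, (if ∀ j ∈ s, k j = 0 then wt a σ k else 0) := by
      rw [← tsum_mul_left]
      have hinj : Function.Injective (fun k : ℕ →₀ ℕ => k + Finsupp.single i 1) :=
        fun k l hkl => add_right_cancel hkl
      rw [← hinj.tsum_eq (f := fun k : ℕ →₀ ℕ =>
        if (∀ j ∈ s, k j = 0) ∧ k i ≠ 0 then wt a σ k else 0)]
      · apply tsum_congr
        intro k
        have h4 : (∀ j ∈ s, (k + Finsupp.single i 1 : ℕ →₀ ℕ) j = 0) ↔ ∀ j ∈ s, k j = 0 := by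
          apply forall₂_congr
          intro j hj
          have hij : i ≠ j := fun h => hi (h ▸ hj)
          rw [Finsupp.add_apply, Finsupp.single_eq_of_ne' hij, add_zero]
        have h5 : (k + Finsupp.single i 1 : ℕ →₀ ℕ) i ≠ 0 := by
          rw [Finsupp.add_apply, Finsupp.single_eq_same]
          omega
        by_cases h6 : ∀ j ∈ s, k j = 0
        · rw [if_pos ⟨h4.2 h6, h5⟩, if_pos h6, wt_shift h1]
        · rw [if_neg (fun h => h6 (h4.1 h.1)), if_neg h6, mul_zero]
      · intro k hk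
        rw [Function.mem_support] at hk
        have h4 : k i ≠ 0 := by
          by_contra h5
          exact hk (if_neg fun h => h.2 h5)
        refine ⟨k - Finsupp.single i 1, ?_⟩
        simp only
        apply tsub_add_cancel_of_le
        rw [Finsupp.single_le_iff]
        omega
    have h4 : ∑' k : ℕ →₀ ℕ, (if ∀ j ∈ s, k j = 0 then wt a σ k else 0) =
        ∑' k : ℕ →₀ ℕ, (if ∀ j ∈ insert i s, k j = 0 then wt a σ k else 0) +
        ∑' k : ℕ →₀ ℕ, (if (∀ j ∈ s, k j = 0) ∧ k i ≠ 0 then wt a σ k else 0) := by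
      rw [tsum_congr h2]
      exact Summable.tsum_add (hsum _) (hsum _)
    rw [h3] at h4
    linarith

/-- The reciprocal sums of a `1`-separated sequence are bounded through the zeta function. -/
theorem sum_le_log {a : ℕ → ℝ} (h1 : ∀ i, 1 < a i) (hs : Erdos951Prop a) {σ : ℝ}
    (hσ : 1 < σ) (s : Finset ℕ) : ∑ i ∈ s, a i ^ (-σ) ≤ Real.log (ze σ) := by
  classical
  have h2 := prod_formula h1 hs hσ s
  have h3 : 1 ≤ ∑' k, (if ∀ j ∈ s, k j = 0 then wt a σ k else 0) := by
    have hsum : Summable (fun k => if ∀ j ∈ s, k j = 0 then wt a σ k else 0) := by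
      refine Summable.of_nonneg_of_le (fun k => ?_) (fun k => ?_) (wt_summable h1 hs hσ)
      · split_ifs
        · exact wt_nonneg h1 σ k
        · exact le_refl _
      · split_ifs
        · exact le_refl _
        · exact wt_nonneg h1 σ k
    have h4 := hsum.le_tsum 0 (fun k _ => by
      split_ifs
      · exact wt_nonneg h1 σ k
      · exact le_refl _)
    have h5 : wt a σ 0 = 1 := by rw [wt, bi_zero, Real.one_rpow]
    have h6 : (if ∀ j ∈ s, (0 : ℕ →₀ ℕ) j = 0 then wt a σ 0 else 0) = 1 := by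
      simp [h5]
    rwa [h6] at h4
  rw [h2] at h3
  have h4 : ∏ i ∈ s, (1 - a i ^ (-σ)) ≤ Real.exp (-∑ i ∈ s, a i ^ (-σ)) := by
    rw [← Finset.sum_neg_distrib, Real.exp_sum]
    apply Finset.prod_le_prod
    · intro i _
      have : a i ^ (-σ) ≤ 1 := Real.rpow_le_one_of_one_le_of_nonpos (h1 i).le (by linarith)
      linarith
    · intro i _
      have := Real.add_one_le_exp (-(a i ^ (-σ)))
      linarith
  have h5 : 0 ≤ ∑' k, wt a σ k := tsum_nonneg (wt_nonneg h1 σ)
  have h6 : 1 ≤ Real.exp (-∑ i ∈ s, a i ^ (-σ)) * ze σ :=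
    h3.trans ((mul_le_mul_of_nonneg_right h4 h5).trans
      (mul_le_mul_of_nonneg_left (wt_tsum_le h1 hs hσ) (Real.exp_pos _).le))
  rw [Real.exp_neg] at h6
  have h7 : 0 < Real.exp (∑ i ∈ s, a i ^ (-σ)) := Real.exp_pos _
  have h8 : Real.exp (∑ i ∈ s, a i ^ (-σ)) ≤ ze σ := by
    have h9 := mul_le_mul_of_nonneg_left h6 h7.le
    rw [mul_one, ← mul_assoc, mul_inv_cancel₀ h7.ne', one_mul] at h9
    exact h9
  rw [Real.le_log_iff_exp_le (lt_of_lt_of_le h7 h8)]
  exact h8

end Pool.Agent.H57E
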