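import Pool.Agent.H57E.Zet

/-!
# Counting functions and reciprocal sums (MP_e2def7_nt)
-/

set_option autoImplicit false

namespace Pool.Agent.H57E

open N44b300f8 Filter MeasureTheory Set Topology
open scoped ENNReal

/-- the counting function of a family, with values in `[0, ∞]` -/
noncomputable def cnt {ι : Type} (b : ι → ℝ) (t : ℝ) : ℝ≥0∞ :=
  ∑' i, (Ici (b i)).indicator (fun _ => (1 : ℝ≥0∞)) t

theorem cnt_eq {ι : Type} (b : ι → ℝ) (t : ℝ) (h : {i | b i ≤ t}.Finite) :
    cnt b t = (({i | b i ≤ t}.ncard : ℕ) : ℝ≥0∞) := by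
  have h1 : cnt b t = ∑' i, {i | b i ≤ t}.indicator (fun _ => (1 : ℝ≥0∞)) i := by
    unfold cnt
    apply tsum_congr
    intro i
    by_cases hi : b i ≤ t
    · rw [indicator_of_mem (show t ∈ Ici (b i) from hi), indicator_of_mem (show i ∈ {i | b i ≤ t} from hi)]
    · rw [indicator_of_notMem (show t ∉ Ici (b i) from hi),
        indicator_of_notMem (show i ∉ {i | b i ≤ t} from hi)]
  rw [h1, ← tsum_subtype, ENNReal.tsum_set_one, ← h.cast_ncard_eq]
  rfl

theorem cnt_mono {ι : Type} (b : ι → ℝ) : Monotone (cnt b) := by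
  intro s t hst
  apply ENNReal.tsum_le_tsum
  intro i
  by_cases hi : b i ≤ s
  · rw [indicator_of_mem (show s ∈ Ici (b i) from hi),
      indicator_of_mem (show t ∈ Ici (b i) from hi.trans hst)]
  · rw [indicator_of_notMem (show s ∉ Ici (b i) from hi)]
    exact zero_le

/-- the density of the layers -/
noncomputable def den (σ t : ℝ) : ℝ≥0∞ := ENNReal.ofReal (σ * t ^ (-σ - 1))

theorem den_meas (σ : ℝ) : Measurable (den σ) := by
  unfold den
  fun_prop

theorem lint_den {σ c : ℝ} (hσ : 0 < σ) (hc : 0 < c) :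
    ∫⁻ t in Ioi c, den σ t = ENNReal.ofReal (c ^ (-σ)) := by
  have h1 : IntegrableOn (fun t : ℝ => σ * t ^ (-σ - 1)) (Ioi c) :=
    (integrableOn_Ioi_rpow_of_lt (by linarith) hc).const_mul σ
  unfold den
  rw [← ofReal_integral_eq_lintegral_ofReal h1]
  · rw [integral_const_mul, integral_Ioi_rpow_of_lt (by linarith) hc]
    congr 1
    rw [show -σ - 1 + 1 = -σ by ring]
    field_simp
  · filter_upwards [ae_restrict_mem measurableSet_Ioi] with t ht
    have : 0 < t := lt_trans hc ht
    positivity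

theorem layer {ι : Type} [Countable ι] (b : ι → ℝ) (hb : ∀ i, 1 < b i) {σ : ℝ} (hσ : 0 < σ) :
    ∫⁻ t in Ioi (1 : ℝ), cnt b t * den σ t = ∑' i, ENNReal.ofReal (b i ^ (-σ)) := by
  have h1 : ∀ t, cnt b t * den σ t = ∑' i, (Ici (b i)).indicator (den σ) t := by
    intro t
    unfold cnt
    rw [← ENNReal.tsum_mul_right]
    apply tsum_congr
    intro i
    by_cases hi : t ∈ Ici (b i)
    · rw [indicator_of_mem hi, indicator_of_mem hi, one_mul]
    · rw [indicator_of_notMem hi, indicator_of_notMem hi, zero_mul]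
  simp only [h1]
  rw [lintegral_tsum]
  · apply tsum_congr
    intro i
    rw [lintegral_indicator measurableSet_Ici, Measure.restrict_restrict measurableSet_Ici]
    have h2 : Ici (b i) ∩ Ioi (1 : ℝ) = Ici (b i) := by
      apply inter_eq_left.2
      intro t ht
      exact lt_of_lt_of_le (hb i) ht
    rw [h2, ← restrict_Ioi_eq_restrict_Ici]
    exact lint_den hσ (by linarith [hb i])
  · intro i
    exact ((den_meas σ).indicator measurableSet_Ici).aemeasurable

end Pool.Agent.H57E
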