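import Pool.Agent.H57E.Layer

/-!
# 1-separated sequences do not stay far above the primes (MP_e2def7_nt)
-/

set_option autoImplicit false

namespace Pool.Agent.H57E

open N44b300f8 Filter MeasureTheory Set Topology
open scoped ENNReal

private theorem bi_single' (a : ℕ → ℝ) (i : ℕ) :
    beurlingInteger a (Finsupp.single i 1) = a i := by
  simp [beurlingInteger]

theorem finite_le {a : ℕ → ℝ} (h0 : 1 < a 0) (hm : StrictMono a) (hs : Erdos951Prop a) (x : ℝ) :
    {i | a i ≤ x}.Finite := by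
  have h1 : ∀ i : ℕ, (i : ℝ) ≤ a i := by
    intro i
    induction i with
    | zero => simp; linarith
    | succ i ih =>
      have h1 : (Finsupp.single (i + 1) 1 : ℕ →₀ ℕ) ≠ Finsupp.single i 1 := by
        intro h
        rw [Finsupp.single_left_inj one_ne_zero] at h
        omega
      have h2 := hs _ _ h1
      rw [bi_single', bi_single'] at h2
      have h3 := hm (Nat.lt_succ_self i)
      rw [ge_iff_le, abs_of_pos (by linarith)] at h2
      push_cast
      linarith
  apply (Set.finite_Iic ⌊x⌋₊).subset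
  intro i hi
  rw [Set.mem_Iic]
  exact Nat.le_floor ((h1 i).trans hi)

/-- the primes as a family of reals -/
noncomputable def pri (p : Nat.Primes) : ℝ := ((p : ℕ) : ℝ)

theorem pri_gt (p : Nat.Primes) : 1 < pri p := by
  have := p.2.one_lt
  unfold pri
  exact_mod_cast this

theorem cnt_pri (t : ℝ) : cnt pri t = ((Nat.primeCounting ⌊t⌋₊ : ℕ) : ℝ≥0∞) := by
  have h1 : (fun p : Nat.Primes => (p : ℕ)) '' {p | pri p ≤ t} =
      (((Finset.range (⌊t⌋₊ + 1)).filter Nat.Prime : Finset ℕ) : Set ℕ) := by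
    ext n
    simp only [mem_image, Set.mem_ofPred_eq, Finset.coe_filter, Finset.mem_range, pri]
    constructor
    · rintro ⟨p, hp, rfl⟩
      exact ⟨Nat.lt_succ_of_le (Nat.le_floor hp), p.2⟩
    · rintro ⟨h2, h3⟩
      refine ⟨⟨n, h3⟩, ?_, rfl⟩
      have h4 : n ≤ ⌊t⌋₊ := Nat.lt_succ_iff.1 h2
      have h5 : n ≠ 0 := h3.ne_zero
      exact (Nat.le_floor_iff' h5).1 h4
  have hinj : Function.Injective (fun p : Nat.Primes => (p : ℕ)) := Nat.Primes.coe_nat_injective
  have hfin : {p | pri p ≤ t}.Finite := by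
    apply Set.Finite.of_finite_image _ hinj.injOn
    rw [h1]
    exact Finset.finite_toSet _
  rw [cnt_eq pri t hfin]
  congr 1
  rw [← Set.ncard_image_of_injective _ hinj, h1, Set.ncard_coe_finset, Nat.primeCounting,
    Nat.primeCounting', Nat.count_eq_card_filter_range]

/-- the weighted inequality -/
theorem weighted {a : ℕ → ℝ} (h1 : ∀ i, 1 < a i) (hs : Erdos951Prop a) {σ : ℝ} (hσ : 1 < σ) :
    ∫⁻ t in Ioi (1 : ℝ), cnt a t * den σ t ≤ (∫⁻ t in Ioi (1 : ℝ), cnt pri t * den σ t) + 2 ∧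
      ∫⁻ t in Ioi (1 : ℝ), cnt pri t * den σ t ≠ ⊤ := by
  obtain ⟨h2, h3⟩ := summable_and_le h1 hs hσ
  have h4 : Summable (fun p : Nat.Primes => pri p ^ (-σ)) :=
    Nat.Primes.summable_rpow.2 (by linarith)
  have h5 : ∀ p : Nat.Primes, 0 ≤ pri p ^ (-σ) := fun p =>
    Real.rpow_nonneg (by linarith [pri_gt p]) _
  have h6 : ∀ i, 0 ≤ a i ^ (-σ) := fun i => Real.rpow_nonneg (by linarith [h1 i]) _
  rw [layer a h1 (by linarith), layer pri pri_gt (by linarith),
    ← ENNReal.ofReal_tsum_of_nonneg h6 h2, ← ENNReal.ofReal_tsum_of_nonneg h5 h4]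
  refine ⟨?_, ENNReal.ofReal_ne_top⟩
  have h7 : (2 : ℝ≥0∞) = ENNReal.ofReal 2 := by simp
  rw [h7, ← ENNReal.ofReal_add (tsum_nonneg h5) (by norm_num)]
  exact ENNReal.ofReal_le_ofReal h3

theorem main {a : ℕ → ℝ} (h0 : 1 < a 0) (hm : StrictMono a) (hs : Erdos951Prop a)
    (φ : ℝ → ℝ) (hφm : Measurable φ) (hφ0 : ∀ t, 0 ≤ φ t)
    (hφ : ∀ x : ℝ, 1 ≤ x → ¬ IntegrableOn (fun t => φ t / t ^ 2) (Ioi x)) (x₀ : ℝ) :
    ∃ t : ℝ, x₀ ≤ t ∧
      (({i | a i ≤ t}.ncard : ℕ) : ℝ) < (Nat.primeCounting ⌊t⌋₊ : ℝ) + φ t := by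
  by_contra hcon
  push Not at hcon
  have h1 : ∀ i, 1 < a i := fun i => h0.trans_le (hm.monotone (Nat.zero_le i))
  set x : ℝ := max x₀ 1 with hx
  have hx1 : 1 ≤ x := le_max_right _ _
  have hxx : x₀ ≤ x := le_max_left _ _
  -- the constant
  set C : ℝ≥0∞ := cnt pri x * (2 * ENNReal.ofReal (x - 1)) + 2 with hC
  have hCtop : C ≠ ⊤ := by
    rw [hC, cnt_pri]
    finiteness
  have key : ∀ σ : ℝ, 1 < σ → σ ≤ 2 →
      ∫⁻ t in Ioi x, ENNReal.ofReal (φ t) * den σ t ≤ C := by
    intro σ hσ hσ2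
    obtain ⟨h2, h3⟩ := weighted h1 hs hσ
    have hmea : Measurable (fun t => cnt pri t * den σ t) :=
      (cnt_mono pri).measurable.mul (den_meas σ)
    have h4 : (∫⁻ t in Ioi x, cnt pri t * den σ t) +
        ∫⁻ t in Ioi x, ENNReal.ofReal (φ t) * den σ t ≤ ∫⁻ t in Ioi (1 : ℝ), cnt a t * den σ t := by
      rw [← lintegral_add_left hmea]
      calc ∫⁻ t in Ioi x, (cnt pri t * den σ t + ENNReal.ofReal (φ t) * den σ t)
          ≤ ∫⁻ t in Ioi x, cnt a t * den σ t := by
            apply setLIntegral_mono' measurableSet_Ioi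
            intro t ht
            rw [← add_mul]
            gcongr
            rw [cnt_pri, cnt_eq a t (finite_le h0 hm hs t)]
            have h5 := hcon t (hxx.trans (le_of_lt ht))
            have h6 := ENNReal.ofReal_le_ofReal h5
            rw [ENNReal.ofReal_add (Nat.cast_nonneg _) (hφ0 t), ENNReal.ofReal_natCast,
              ENNReal.ofReal_natCast] at h6
            exact h6
        _ ≤ ∫⁻ t in Ioi (1 : ℝ), cnt a t * den σ t :=
            lintegral_mono_set (Ioi_subset_Ioi hx1)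
    have h5 : ∫⁻ t in Ioi (1 : ℝ), cnt pri t * den σ t ≤
        cnt pri x * (2 * ENNReal.ofReal (x - 1)) + ∫⁻ t in Ioi x, cnt pri t * den σ t := by
      rw [← Ioc_union_Ioi_eq_Ioi hx1]
      refine (lintegral_union_le _ _ _).trans ?_
      gcongr
      calc ∫⁻ t in Ioc 1 x, cnt pri t * den σ t ≤ ∫⁻ _ in Ioc 1 x, cnt pri x * 2 := by
            apply setLIntegral_mono' measurableSet_Ioc
            intro t ht
            apply mul_le_mul' (cnt_mono pri ht.2)
            unfold den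
            have h7 : (2 : ℝ≥0∞) = ENNReal.ofReal 2 := by simp
            rw [h7]
            apply ENNReal.ofReal_le_ofReal
            have h8 : t ^ (-σ - 1) ≤ 1 :=
              Real.rpow_le_one_of_one_le_of_nonpos ht.1.le (by linarith)
            have h9 : 0 ≤ t ^ (-σ - 1) := Real.rpow_nonneg (by linarith [ht.1]) _
            nlinarith
        _ = cnt pri x * (2 * ENNReal.ofReal (x - 1)) := by
            rw [setLIntegral_const, Real.volume_Ioc, mul_assoc]
    have h6 : (∫⁻ t in Ioi x, cnt pri t * den σ t) ≠ ⊤ :=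
      ne_top_of_le_ne_top h3 (lintegral_mono_set (Ioi_subset_Ioi hx1))
    have h7 : (∫⁻ t in Ioi x, cnt pri t * den σ t) +
        ∫⁻ t in Ioi x, ENNReal.ofReal (φ t) * den σ t ≤
        (∫⁻ t in Ioi x, cnt pri t * den σ t) + C := by
      calc _ ≤ _ := h4
        _ ≤ _ := h2
        _ ≤ cnt pri x * (2 * ENNReal.ofReal (x - 1)) + (∫⁻ t in Ioi x, cnt pri t * den σ t) + 2 := by
            gcongr
        _ = _ := by rw [hC]; ring
    exact (ENNReal.add_le_add_iff_left h6).1 h7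
  -- the limit `σ → 1`
  let s : ℕ → ℝ := fun n => 1 + 1 / ((n : ℝ) + 1)
  have hs1 : ∀ n, 1 < s n := fun n => by
    have : (0 : ℝ) < 1 / ((n : ℝ) + 1) := by positivity
    show 1 < 1 + 1 / ((n : ℝ) + 1)
    linarith
  have hs2 : ∀ n, s n ≤ 2 := fun n => by
    have : 1 / ((n : ℝ) + 1) ≤ 1 := by
      rw [div_le_one (by positivity)]
      have : (0 : ℝ) ≤ n := Nat.cast_nonneg n
      linarith
    show 1 + 1 / ((n : ℝ) + 1) ≤ 2
    linarith
  have hslim : Tendsto s atTop (𝓝 1) := by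
    have h2 := (tendsto_one_div_add_atTop_nhds_zero_nat (𝕜 := ℝ)).const_add (1 : ℝ)
    rw [add_zero] at h2
    exact h2
  have hgm : ∀ n, Measurable (fun t => ENNReal.ofReal (φ t) * den (s n) t) := fun n =>
    hφm.ennreal_ofReal.mul (den_meas _)
  have hfat := lintegral_liminf_le (μ := volume.restrict (Ioi x)) (u := atTop) hgm
  have hup : liminf (fun n => ∫⁻ t in Ioi x, ENNReal.ofReal (φ t) * den (s n) t) atTop ≤ C := by
    calc _ ≤ liminf (fun _ : ℕ => C) atTop :=
          liminf_le_liminf (Eventually.of_forall fun n => key _ (hs1 n) (hs2 n))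
      _ = C := liminf_const C
  have hlow : ∫⁻ t in Ioi x, ENNReal.ofReal (φ t / t ^ 2) =
      ∫⁻ t in Ioi x, liminf (fun n => ENNReal.ofReal (φ t) * den (s n) t) atTop := by
    apply setLIntegral_congr_fun measurableSet_Ioi
    intro t ht
    have ht0 : 0 < t := lt_of_lt_of_le (by linarith) (le_of_lt ht)
    have h2 : Tendsto (fun n => s n * t ^ (-s n - 1)) atTop (𝓝 (1 * t ^ (-(1 : ℝ) - 1))) := by
      apply hslim.mul
      exact ((Real.continuous_const_rpow ht0.ne').tendsto _).comp ((hslim.neg).sub_const 1)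
    have h3 : Tendsto (fun n => ENNReal.ofReal (φ t) * den (s n) t) atTop
        (𝓝 (ENNReal.ofReal (φ t) * ENNReal.ofReal (1 * t ^ (-(1 : ℝ) - 1)))) :=
      ENNReal.Tendsto.const_mul ((ENNReal.continuous_ofReal.tendsto _).comp h2)
        (Or.inr ENNReal.ofReal_ne_top)
    show ENNReal.ofReal (φ t / t ^ 2) = liminf (fun n => ENNReal.ofReal (φ t) * den (s n) t) atTop
    rw [h3.liminf_eq, ← ENNReal.ofReal_mul (hφ0 t)]
    congr 1
    rw [one_mul, show (-(1 : ℝ) - 1) = -((2 : ℕ) : ℝ) by norm_num, Real.rpow_neg ht0.le,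
      Real.rpow_natCast, div_eq_mul_inv]
  have hfin : ∫⁻ t in Ioi x, ENNReal.ofReal (φ t / t ^ 2) < ⊤ := by
    rw [hlow]
    exact (hfat.trans hup).trans_lt hCtop.lt_top
  apply hφ x hx1
  refine ⟨(hφm.div (measurable_id.pow_const 2)).aestronglyMeasurable, ?_⟩
  rw [hasFiniteIntegral_iff_ofReal]
  · exact hfin
  · filter_upwards [] with t
    have := hφ0 t
    positivity

end Pool.Agent.H57E
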