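import Pool.Agent.H57E.Cor

/-!
# A uniform bound for the excess over the primes (MP_e2def7_nt)
-/

set_option autoImplicit false

namespace Pool.Agent.H57E

open N44b300f8 Filter MeasureTheory Set Topology
open scoped ENNReal

theorem pi_le_five {t : ℝ} (ht : 1 < t) : (Nat.primeCounting ⌊t⌋₊ : ℝ) ≤ 5 * t / Real.log t := by
  have h1 := Chebyshev.pi_le_log4_mul_div ht
  have hlog : 0 < Real.log t := Real.log_pos ht
  have ht0 : 0 < t := by linarith
  have hs0 : 0 < √t := Real.sqrt_pos.2 ht0
  have h2 : Real.log √t = Real.log t / 2 := Real.log_sqrt ht0.le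
  have h3 : Real.log t ≤ 2 * √t := by
    have h4 := Real.log_le_sub_one_of_pos hs0
    rw [h2] at h4
    linarith
  have h5 : √t ≤ 2 * t / Real.log t := by
    rw [le_div_iff₀ hlog]
    have h6 : √t * √t = t := Real.mul_self_sqrt ht0.le
    nlinarith
  have h7 : Real.log 4 ≤ 3 / 2 := by
    have h8 : Real.log 4 = 2 * Real.log 2 := by
      rw [show (4 : ℝ) = 2 ^ 2 by norm_num, Real.log_pow]
      norm_num
    have := Real.log_two_lt_d9
    rw [h8]
    linarith
  calc (Nat.primeCounting ⌊t⌋₊ : ℝ) ≤ Real.log 4 * t / Real.log √t + √t := h1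
    _ = 2 * Real.log 4 * (t / Real.log t) + √t := by rw [h2]; field_simp
    _ ≤ 2 * (3 / 2) * (t / Real.log t) + 2 * t / Real.log t := by gcongr
    _ = 5 * t / Real.log t := by ring

theorem lint_loglog {u v : ℝ} (hu : 1 < u) (huv : u ≤ v) :
    ∫⁻ t in Ioc u v, ENNReal.ofReal (1 / (t * Real.log t)) =
      ENNReal.ofReal (Real.log (Real.log v) - Real.log (Real.log u)) := by
  have hd : ∀ t ∈ uIcc u v, HasDerivAt (fun t => Real.log (Real.log t)) (1 / (t * Real.log t)) t := by
    intro t ht
    rw [uIcc_of_le huv] at ht
    have ht1 : 1 < t := lt_of_lt_of_le hu ht.1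
    have h1 := (Real.hasDerivAt_log (by linarith : t ≠ 0)).log (Real.log_pos ht1).ne'
    convert h1 using 1
    rw [one_div, mul_inv, div_eq_mul_inv]
  have hc : ContinuousOn (fun t : ℝ => 1 / (t * Real.log t)) (uIcc u v) := by
    rw [uIcc_of_le huv]
    intro t ht
    have ht1 : 1 < t := lt_of_lt_of_le hu ht.1
    apply ContinuousAt.continuousWithinAt
    apply ContinuousAt.div continuousAt_const
    · exact continuousAt_id.mul (Real.continuousAt_log (by linarith))
    · exact (mul_pos (by linarith) (Real.log_pos ht1)).ne'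
  have h1 := intervalIntegral.integral_eq_sub_of_hasDerivAt hd hc.intervalIntegrable
  have h2 : IntegrableOn (fun t : ℝ => 1 / (t * Real.log t)) (Ioc u v) :=
    (intervalIntegrable_iff_integrableOn_Ioc_of_le huv).1 hc.intervalIntegrable
  rw [intervalIntegral.integral_of_le huv] at h1
  rw [← h1, ofReal_integral_eq_lintegral_ofReal h2]
  filter_upwards [ae_restrict_mem measurableSet_Ioc] with t ht
  have ht1 : 1 < t := lt_trans hu ht.1
  have := Real.log_pos ht1
  positivity

/-- the head of the weighted sum over the primes -/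
theorem head_le {σ X : ℝ} (hσ : 1 < σ) (hσ2 : σ ≤ 2) (hX : 2 ≤ X) :
    ∫⁻ t in Ioc 1 X, cnt pri t * den σ t ≤
      ENNReal.ofReal (2 + 10 * (Real.log (Real.log X) - Real.log (Real.log 2))) := by
  rw [← Ioc_union_Ioc_eq_Ioc (by norm_num : (1 : ℝ) ≤ 2) hX]
  refine (lintegral_union_le _ _ _).trans ?_
  have hll : 0 ≤ Real.log (Real.log X) - Real.log (Real.log 2) := by
    have h1 : Real.log 2 ≤ Real.log X := Real.log_le_log (by norm_num) hX
    have h2 := Real.log_le_log (Real.log_pos (by norm_num : (1 : ℝ) < 2)) h1
    linarith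
  rw [ENNReal.ofReal_add (by norm_num) (by positivity)]
  apply add_le_add
  · calc ∫⁻ t in Ioc 1 2, cnt pri t * den σ t ≤ ∫⁻ _ in Ioc (1 : ℝ) 2, ENNReal.ofReal 2 := by
          apply setLIntegral_mono' measurableSet_Ioc
          intro t ht
          have h1 : cnt pri t ≤ 1 := by
            refine (cnt_mono pri ht.2).trans (le_of_eq ?_)
            rw [cnt_pri]
            have h2 : ⌊(2 : ℝ)⌋₊ = 2 := by norm_num
            rw [h2]
            have h3 : Nat.primeCounting 2 = 1 := by decide
            rw [h3]
            simp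
          calc cnt pri t * den σ t ≤ 1 * ENNReal.ofReal 2 := by
                apply mul_le_mul' h1
                unfold den
                apply ENNReal.ofReal_le_ofReal
                have h8 : t ^ (-σ - 1) ≤ 1 :=
                  Real.rpow_le_one_of_one_le_of_nonpos ht.1.le (by linarith)
                have h9 : 0 ≤ t ^ (-σ - 1) := Real.rpow_nonneg (by linarith [ht.1]) _
                nlinarith
            _ = ENNReal.ofReal 2 := one_mul _
      _ = ENNReal.ofReal 2 := by
          rw [setLIntegral_const, Real.volume_Ioc]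
          norm_num
  · calc ∫⁻ t in Ioc 2 X, cnt pri t * den σ t
        ≤ ∫⁻ t in Ioc 2 X, ENNReal.ofReal 10 * ENNReal.ofReal (1 / (t * Real.log t)) := by
          apply setLIntegral_mono' measurableSet_Ioc
          intro t ht
          have ht1 : 1 < t := by linarith [ht.1]
          have ht0 : 0 < t := by linarith
          have hlog := Real.log_pos ht1
          rw [cnt_pri, den, ← ENNReal.ofReal_natCast, ← ENNReal.ofReal_mul (Nat.cast_nonneg _),
            ← ENNReal.ofReal_mul (by norm_num)]
          apply ENNReal.ofReal_le_ofReal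
          have h1 : t ^ (-σ - 1) ≤ (t ^ 2)⁻¹ := by
            rw [← Real.rpow_natCast, ← Real.rpow_neg ht0.le]
            apply Real.rpow_le_rpow_of_exponent_le ht1.le
            push_cast
            linarith
          calc (Nat.primeCounting ⌊t⌋₊ : ℝ) * (σ * t ^ (-σ - 1))
              ≤ (5 * t / Real.log t) * (2 * (t ^ 2)⁻¹) := by
                apply mul_le_mul (pi_le_five ht1) _ (by positivity) (by positivity)
                exact mul_le_mul hσ2 h1 (by positivity) (by norm_num)
            _ = 10 * (1 / (t * Real.log t)) := by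
                field_simp
                ring
      _ = ENNReal.ofReal (10 * (Real.log (Real.log X) - Real.log (Real.log 2))) := by
          rw [lintegral_const_mul' _ _ ENNReal.ofReal_ne_top, lint_loglog (by norm_num) hX,
            ← ENNReal.ofReal_mul (by norm_num)]

/-- the tail of the weighted sum over the primes -/
theorem tail_le {Y : ℝ} (hY : 3 ≤ Y) :
    ∫⁻ t in Ioi Y, cnt pri t * den (1 + 1 / Real.log Y) t ≤ ENNReal.ofReal 10 := by
  have hY0 : 0 < Y := by linarith
  have hL1 : 1 < Real.log Y := by
    rw [Real.lt_log_iff_exp_lt hY0]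
    have := Real.exp_one_lt_d9
    linarith
  set L := Real.log Y with hL
  have hσ : 1 < 1 + 1 / L := by
    have : 0 < 1 / L := by positivity
    linarith
  have hσ2 : 1 + 1 / L ≤ 2 := by
    have : 1 / L ≤ 1 := by
      rw [div_le_one (by linarith)]
      exact hL1.le
    linarith
  calc ∫⁻ t in Ioi Y, cnt pri t * den (1 + 1 / L) t
      ≤ ∫⁻ t in Ioi Y, ENNReal.ofReal (10 / L) * ENNReal.ofReal (t ^ (-(1 + 1 / L))) := by
        apply setLIntegral_mono' measurableSet_Ioi
        intro t ht
        have htY : Y < t := ht
        have ht1 : 1 < t := by linarith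
        have ht0 : 0 < t := by linarith
        have hlog : L ≤ Real.log t := Real.log_le_log hY0 htY.le
        rw [cnt_pri, den, ← ENNReal.ofReal_natCast, ← ENNReal.ofReal_mul (Nat.cast_nonneg _),
          ← ENNReal.ofReal_mul (by positivity)]
        apply ENNReal.ofReal_le_ofReal
        have h1 : t ^ (-(1 + 1 / L) - 1) = t ^ (-(1 + 1 / L)) / t := Real.rpow_sub_one ht0.ne' _
        rw [h1]
        have h2 : 0 ≤ t ^ (-(1 + 1 / L)) := Real.rpow_nonneg ht0.le _
        calc (Nat.primeCounting ⌊t⌋₊ : ℝ) * ((1 + 1 / L) * (t ^ (-(1 + 1 / L)) / t))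
            ≤ (5 * t / L) * (2 * (t ^ (-(1 + 1 / L)) / t)) := by
              apply mul_le_mul _ _ (by positivity) (by positivity)
              · refine (pi_le_five ht1).trans ?_
                gcongr
              · gcongr
          _ = 10 / L * t ^ (-(1 + 1 / L)) := by
              field_simp
              ring
    _ = ENNReal.ofReal (10 / L) * ∫⁻ t in Ioi Y, ENNReal.ofReal (t ^ (-(1 + 1 / L))) := by
        rw [lintegral_const_mul' _ _ ENNReal.ofReal_ne_top]
    _ ≤ ENNReal.ofReal (10 / L) * ENNReal.ofReal L := by
        gcongr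
        rw [← ofReal_integral_eq_lintegral_ofReal
          (integrableOn_Ioi_rpow_of_lt (by linarith) hY0)]
        · apply ENNReal.ofReal_le_ofReal
          rw [integral_Ioi_rpow_of_lt (by linarith) hY0,
            show -(1 + 1 / L) + 1 = -(1 / L) by ring, neg_div_neg_eq]
          have h1 : Y ^ (-(1 / L)) ≤ 1 :=
            Real.rpow_le_one_of_one_le_of_nonpos (by linarith) (by
              have : 0 < 1 / L := by positivity
              linarith)
          calc Y ^ (-(1 / L)) / (1 / L) = Y ^ (-(1 / L)) * L := by field_simp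
            _ ≤ 1 * L := by gcongr
            _ = L := one_mul L
        · filter_upwards [ae_restrict_mem measurableSet_Ioi] with t ht
          have : 0 < t := lt_trans hY0 ht
          positivity
    _ = ENNReal.ofReal 10 := by
        rw [← ENNReal.ofReal_mul (by positivity)]
        congr 1
        field_simp

end Pool.Agent.H57E
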