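import Pool.Agent.H67M.Div
import Pool.Agent.H57E.Unif

/-!
# The averaged excess when the sequence stays above the primes (MP_e2def7_nt)
-/

set_option autoImplicit false

namespace Pool.Agent.H57E

open Finset MeasureTheory intervalIntegral

/-- Multiplying by `x ^ (-σ)` keeps integrability on `(1, Y]`. -/
theorem mul_w {F : ℝ → ℝ} {Y σ : ℝ} (hF : IntegrableOn F (Set.Ioc 1 Y)) (hσ : 0 < σ) :
    IntegrableOn (fun x => F x * x ^ (-σ)) (Set.Ioc 1 Y) := by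
  refine Integrable.mono hF ?_ ?_
  · exact hF.aestronglyMeasurable.mul (measurable_id.pow_const (-σ)).aestronglyMeasurable
  · filter_upwards [ae_restrict_mem measurableSet_Ioc] with x hx
    rw [norm_mul]
    have h1 : ‖x ^ (-σ)‖ ≤ 1 := by
      rw [Real.norm_of_nonneg (Real.rpow_nonneg (by linarith [hx.1]) _)]
      exact Real.rpow_le_one_of_one_le_of_nonpos hx.1.le (by linarith)
    calc ‖F x‖ * ‖x ^ (-σ)‖ ≤ ‖F x‖ * 1 := by gcongr
      _ = ‖F x‖ := mul_one _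

theorem ind_w {b Y σ : ℝ} (hb : 1 < b) (hbY : b ≤ Y) (hσ : 0 < σ) :
    IntegrableOn (fun x : ℝ => (if b ≤ x then (1 : ℝ) else 0) / x ^ 2 * x ^ (-σ)) (Set.Ioc 1 Y) ∧
      ∫ x in Set.Ioc 1 Y, (if b ≤ x then (1 : ℝ) else 0) / x ^ 2 * x ^ (-σ) ≤
        b ^ (-(1 + σ)) := by
  obtain ⟨h1, h2⟩ := H67M.int_ind hb hbY
  have hb0 : 0 < b := by linarith
  refine ⟨mul_w h1 hσ, ?_⟩
  have h3 : ∫ x in Set.Ioc 1 Y, (if b ≤ x then (1 : ℝ) else 0) / x ^ 2 * x ^ (-σ) ≤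
      ∫ x in Set.Ioc 1 Y, (if b ≤ x then (1 : ℝ) else 0) / x ^ 2 * b ^ (-σ) := by
    refine setIntegral_mono_on (mul_w h1 hσ) (h1.mul_const _) measurableSet_Ioc fun x hx => ?_
    by_cases hx2 : b ≤ x
    · rw [if_pos hx2]
      refine mul_le_mul_of_nonneg_left ?_ (by positivity)
      exact Real.rpow_le_rpow_of_nonpos hb0 hx2 (by linarith)
    · rw [if_neg hx2]
      simp
  have h4 : ∫ x in Set.Ioc 1 Y, (if b ≤ x then (1 : ℝ) else 0) / x ^ 2 * b ^ (-σ) =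
      (1 / b - 1 / Y) * b ^ (-σ) := by
    rw [MeasureTheory.integral_mul_const, h2]
  have h5 : b ^ (-(1 + σ)) = 1 / b * b ^ (-σ) := by
    rw [show -(1 + σ) = -1 + -σ by ring, Real.rpow_add hb0, Real.rpow_neg_one, one_div]
  rw [h5]
  refine h3.trans (h4.le.trans ?_)
  refine mul_le_mul_of_nonneg_right ?_ (Real.rpow_nonneg hb0.le _)
  have : 0 < 1 / Y := by
    have : 0 < Y := by linarith
    positivity
  linarith

theorem fw_le {a : ℕ → ℝ} (h0 : 1 < a 0) (hm : StrictMono a)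
    (hs : N44b300f8.Erdos951Prop a) {Y σ : ℝ} (hσ : 0 < σ) :
    ∫ x in Set.Ioc 1 Y, (H67M.cnt a x : ℝ) / x ^ 2 * x ^ (-σ) ≤
      ∑ i ∈ H67M.idx a Y, (a i) ^ (-(1 + σ)) := by
  have h1 : ∀ i ∈ H67M.idx a Y, 1 < a i ∧ a i ≤ Y := fun i hi =>
    ⟨h0.trans_le (hm.monotone (Nat.zero_le i)), (H67M.mem_idx h0 hm hs).1 hi⟩
  have heq : ∫ x in Set.Ioc 1 Y, (H67M.cnt a x : ℝ) / x ^ 2 * x ^ (-σ) =
      ∫ x in Set.Ioc 1 Y, ∑ i ∈ H67M.idx a Y,
        ((if a i ≤ x then (1 : ℝ) else 0) / x ^ 2 * x ^ (-σ)) := by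
    refine setIntegral_congr_fun measurableSet_Ioc fun x hx => ?_
    rw [H67M.cnt_eq h0 hm hs hx.2, sum_div, sum_mul]
  rw [heq, integral_finsetSum _ fun i hi => (ind_w (h1 i hi).1 (h1 i hi).2 hσ).1]
  exact sum_le_sum fun i hi => (ind_w (h1 i hi).1 (h1 i hi).2 hσ).2

theorem gw_ge {Y σ : ℝ} (hY : 16 ≤ Y) (hσ : 0 < σ) :
    Real.log (Real.log Y) - 6 - 5 * σ * Real.log Y ≤
      ∫ x in Set.Ioc 1 Y, (Nat.primeCounting ⌊x⌋₊ : ℝ) / x ^ 2 * x ^ (-σ) := by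
  have hY1 : 1 ≤ Y := by linarith
  obtain ⟨hJ1, hJ2⟩ := H67M.int_pi hY1
  have hJw := mul_w hJ1 hσ
  have hinv : IntegrableOn (fun x : ℝ => x⁻¹) (Set.Ioc 1 Y) := by
    have hc : ContinuousOn (fun x : ℝ => x⁻¹) (Set.Icc 1 Y) := by
      intro x hx
      have : x ≠ 0 := by
        have := hx.1
        linarith
      exact (continuousAt_inv₀ this).continuousWithinAt
    exact (hc.integrableOn_Icc).mono_set Set.Ioc_subset_Icc_self
  have h1 : ∫ x in Set.Ioc 1 Y, ((Nat.primeCounting ⌊x⌋₊ : ℝ) / x ^ 2 -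
      (Nat.primeCounting ⌊x⌋₊ : ℝ) / x ^ 2 * x ^ (-σ)) ≤
      ∫ x in Set.Ioc 1 Y, 5 * σ * x⁻¹ := by
    refine setIntegral_mono_on (hJ1.sub hJw) (hinv.const_mul _) measurableSet_Ioc fun x hx => ?_
    have hx1 : 1 < x := hx.1
    have hx0 : 0 < x := by linarith
    have hlx : 0 < Real.log x := Real.log_pos hx1
    have h2 := pi_le_five hx1
    have h3 : 1 - x ^ (-σ) ≤ σ * Real.log x := by
      rw [Real.rpow_def_of_pos hx0]
      have := Real.add_one_le_exp (Real.log x * -σ)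
      linarith
    have h4 : 0 ≤ (Nat.primeCounting ⌊x⌋₊ : ℝ) / x ^ 2 := by positivity
    calc (Nat.primeCounting ⌊x⌋₊ : ℝ) / x ^ 2 - (Nat.primeCounting ⌊x⌋₊ : ℝ) / x ^ 2 * x ^ (-σ)
        = (Nat.primeCounting ⌊x⌋₊ : ℝ) / x ^ 2 * (1 - x ^ (-σ)) := by ring
      _ ≤ (Nat.primeCounting ⌊x⌋₊ : ℝ) / x ^ 2 * (σ * Real.log x) :=
          mul_le_mul_of_nonneg_left h3 h4
      _ ≤ (5 * x / Real.log x) / x ^ 2 * (σ * Real.log x) := by
          gcongr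
      _ = 5 * σ * x⁻¹ := by
          field_simp
  have hi : ∫ x in Set.Ioc 1 Y, (x : ℝ)⁻¹ = Real.log Y := by
    rw [← integral_of_le hY1, integral_inv_of_pos one_pos (by linarith), div_one]
  rw [integral_sub hJ1 hJw, hJ2, MeasureTheory.integral_const_mul, hi] at h1
  have h3 := H67M.pi_lower hY
  linarith

/-- The averaged excess of a `1`-separated sequence on `[1, Y]` is at most
`max 0 (log (log log X * log Y / log Z)) + C` if the sequence has at least `π(t)` terms up to `t`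
for all `t` in `[X, Z]`, where `X ≤ Y ≤ Z`. -/
theorem sharp : ∃ C : ℝ, ∀ a : ℕ → ℝ, 1 < a 0 → StrictMono a → N44b300f8.Erdos951Prop a →
    ∀ X Y Z : ℝ, 16 ≤ X → X ≤ Y → Y ≤ Z →
      (∀ t : ℝ, X ≤ t → t ≤ Z → (Nat.primeCounting ⌊t⌋₊ : ℝ) ≤ ({i : ℕ | a i ≤ t}.ncard : ℝ)) →
      ∫ t in (1 : ℝ)..Y, (({i : ℕ | a i ≤ t}.ncard : ℝ) - Nat.primeCounting ⌊t⌋₊) / t ^ 2 ≤
        max 0 (Real.log (Real.log (Real.log X) * Real.log Y / Real.log Z)) + C := by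
  obtain ⟨C₀, hC₀⟩ := H67M.pi_upper
  refine ⟨4 * (14 + |C₀|) + 3, fun a h0 hm hs X Y Z hX hXY hYZ hA => ?_⟩
  have hY : 16 ≤ Y := hX.trans hXY
  have hZ : 16 ≤ Z := hY.trans hYZ
  have hY1 : 1 ≤ Y := by linarith
  have hX1 : 1 ≤ X := by linarith
  have hZ1 : 1 ≤ Z := by linarith
  have hY0 : 0 < Y := by linarith
  have hX0 : 0 < X := by linarith
  have hl16 : Real.exp 1 ≤ Real.log 16 := by
    have h1 : Real.log 16 = 4 * Real.log 2 := by
      rw [show (16 : ℝ) = 2 ^ 4 by norm_num, Real.log_pow]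
      norm_num
    have h2 := Real.log_two_gt_d9
    have h3 := Real.exp_one_lt_d9
    linarith
  have hlX : Real.exp 1 ≤ Real.log X := hl16.trans (Real.log_le_log (by norm_num) hX)
  have hlY : Real.exp 1 ≤ Real.log Y := hl16.trans (Real.log_le_log (by norm_num) hY)
  have hlYZ : Real.log Y ≤ Real.log Z := Real.log_le_log hY0 hYZ
  have he := Real.exp_pos 1
  obtain ⟨K, hK⟩ : ∃ K, K = Real.log (Real.log X) := ⟨_, rfl⟩
  obtain ⟨L, hL⟩ : ∃ L, L = Real.log Y := ⟨_, rfl⟩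
  obtain ⟨N, hN⟩ : ∃ N, N = Real.log Z := ⟨_, rfl⟩
  have hK1 : 1 ≤ K := by
    rw [hK, Real.le_log_iff_exp_le (by linarith)]
    exact hlX
  have hL1 : 1 ≤ L := by
    have := Real.add_one_le_exp (1 : ℝ)
    linarith
  have hLN : L ≤ N := by
    rw [hL, hN]
    exact hlYZ
  have hN1 : 1 ≤ N := hL1.trans hLN
  have hK0 : 0 < K := by linarith
  have hL0 : 0 < L := by linarith
  have hN0 : 0 < N := by linarith
  obtain ⟨E, hE⟩ : ∃ E, E = max 0 (Real.log (K * L / N)) := ⟨_, rfl⟩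
  obtain ⟨M, hM⟩ : ∃ M, M = max N (K * L) := ⟨_, rfl⟩
  have hMN : N ≤ M := hM ▸ le_max_left _ _
  have hMK : K * L ≤ M := hM ▸ le_max_right _ _
  have hM0 : 0 < M := hN0.trans_le hMN
  have hM1 : 1 ≤ M := hN1.trans hMN
  have hlM : Real.log M ≤ E + Real.log N := by
    rcases le_total N (K * L) with h | h
    · rw [hM, max_eq_right h, hE, Real.log_div (by positivity) hN0.ne']
      have := le_max_right 0 (Real.log (K * L) - Real.log N)
      linarith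
    · rw [hM, max_eq_left h, hE]
      have := le_max_left 0 (Real.log (K * L / N))
      linarith
  have hE0 : 0 ≤ E := hE ▸ le_max_left _ _
  have hEK : E ≤ Real.log K := by
    rw [hE]
    refine max_le (Real.log_nonneg hK1) (Real.log_le_log (by positivity) ?_)
    rw [div_le_iff₀ hN0]
    exact mul_le_mul_of_nonneg_left hLN hK0.le
  obtain ⟨σ, hσd⟩ : ∃ σ : ℝ, σ = 1 / M := ⟨_, rfl⟩
  have hσ : 0 < σ := by
    rw [hσd]
    positivity
  have hσL : σ * L ≤ 1 / K := by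
    rw [hσd, one_div_mul_eq_div, div_le_div_iff₀ hM0 hK0]
    linarith
  have hσN : σ * N ≤ 1 := by
    rw [hσd, one_div_mul_eq_div, div_le_one hM0]
    exact hMN
  obtain ⟨v, hv⟩ : ∃ v : ℝ, v = Y ^ (-σ) := ⟨_, rfl⟩
  have hv1 : v = Real.exp (-(σ * L)) := by
    rw [hv, Real.rpow_def_of_pos hY0, ← hL]
    congr 1
    ring
  have hv2 : 1 - 1 / K ≤ v := by
    rw [hv1]
    have := Real.add_one_le_exp (-(σ * L))
    linarith
  have hv3 : v ≤ 1 := by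
    rw [hv1]
    exact Real.exp_le_one_iff.2 (by
      have : 0 < σ * L := by positivity
      linarith)
  have hv4 : Real.exp (-1) ≤ v := by
    rw [hv1]
    refine Real.exp_le_exp.2 ?_
    have : 1 / K ≤ 1 := by
      rw [div_le_one hK0]
      exact hK1
    linarith
  obtain ⟨hI1, -⟩ := H67M.int_cnt h0 hm hs Y
  obtain ⟨hJ1, -⟩ := H67M.int_pi hY1
  obtain ⟨hI1Z, -⟩ := H67M.int_cnt h0 hm hs Z
  obtain ⟨hJ1Z, -⟩ := H67M.int_pi hZ1
  have hIw := mul_w hI1 hσ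
  have hJw := mul_w hJ1 hσ
  have hIwZ := mul_w hI1Z hσ
  have hJwZ := mul_w hJ1Z hσ
  -- the upper bound for the weighted sequence
  have hF : ∫ x in Set.Ioc 1 Z, (H67M.cnt a x : ℝ) / x ^ 2 * x ^ (-σ) ≤
      2 + E + Real.log N := by
    have h1 := fw_le h0 hm hs (Y := Z) hσ
    have h2 := H67M.sum_le h0 hm hs (H67M.idx a Z) (s := 1 + σ) (by linarith)
    have h3 : (1 + σ) / (1 + σ - 1) ≤ 2 * M := by
      rw [add_sub_cancel_left, div_le_iff₀ hσ, hσd]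
      have h5 : 1 / M ≤ 1 := by
        rw [div_le_one hM0]
        exact hM1
      have h6 : 2 * M * (1 / M) = 2 := by
        field_simp
      linarith
    have h4 : Real.log ((1 + σ) / (1 + σ - 1)) ≤ Real.log 2 + Real.log M := by
      rw [← Real.log_mul (by norm_num) hM0.ne']
      refine Real.log_le_log ?_ h3
      rw [add_sub_cancel_left]
      positivity
    have h5 := Real.log_two_lt_d9
    linarith
  -- the lower bound for the weighted primes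
  have hG := gw_ge hZ hσ
  have hG2 : 5 * σ * Real.log Z ≤ 5 := by
    rw [← hN, mul_assoc]
    linarith
  -- restriction to `(1, Y]`
  have hR : (∫ x in Set.Ioc 1 Y, (H67M.cnt a x : ℝ) / x ^ 2 * x ^ (-σ)) -
      (∫ x in Set.Ioc 1 Y, (Nat.primeCounting ⌊x⌋₊ : ℝ) / x ^ 2 * x ^ (-σ)) ≤
      (∫ x in Set.Ioc 1 Z, (H67M.cnt a x : ℝ) / x ^ 2 * x ^ (-σ)) -
      (∫ x in Set.Ioc 1 Z, (Nat.primeCounting ⌊x⌋₊ : ℝ) / x ^ 2 * x ^ (-σ)) := by
    have hsub : Set.Ioc Y Z ⊆ Set.Ioc 1 Z := Set.Ioc_subset_Ioc_left hY1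
    have hdis : Disjoint (Set.Ioc 1 Y) (Set.Ioc Y Z) := by
      rw [Set.disjoint_left]
      intro x hx hx2
      exact absurd hx2.1 (not_lt.2 hx.2)
    have e1 : ∫ x in Set.Ioc 1 Z, (H67M.cnt a x : ℝ) / x ^ 2 * x ^ (-σ) =
        (∫ x in Set.Ioc 1 Y, (H67M.cnt a x : ℝ) / x ^ 2 * x ^ (-σ)) +
        ∫ x in Set.Ioc Y Z, (H67M.cnt a x : ℝ) / x ^ 2 * x ^ (-σ) := by
      rw [← Set.Ioc_union_Ioc_eq_Ioc hY1 hYZ]
      exact setIntegral_union hdis measurableSet_Ioc hIw (hIwZ.mono_set hsub)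
    have e2 : ∫ x in Set.Ioc 1 Z, (Nat.primeCounting ⌊x⌋₊ : ℝ) / x ^ 2 * x ^ (-σ) =
        (∫ x in Set.Ioc 1 Y, (Nat.primeCounting ⌊x⌋₊ : ℝ) / x ^ 2 * x ^ (-σ)) +
        ∫ x in Set.Ioc Y Z, (Nat.primeCounting ⌊x⌋₊ : ℝ) / x ^ 2 * x ^ (-σ) := by
      rw [← Set.Ioc_union_Ioc_eq_Ioc hY1 hYZ]
      exact setIntegral_union hdis measurableSet_Ioc hJw (hJwZ.mono_set hsub)
    have e3 : ∫ x in Set.Ioc Y Z, (Nat.primeCounting ⌊x⌋₊ : ℝ) / x ^ 2 * x ^ (-σ) ≤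
        ∫ x in Set.Ioc Y Z, (H67M.cnt a x : ℝ) / x ^ 2 * x ^ (-σ) := by
      refine setIntegral_mono_on (hJwZ.mono_set hsub) (hIwZ.mono_set hsub) measurableSet_Ioc
        fun x hx => ?_
      have hx0 : 0 < x := hY0.trans hx.1
      refine mul_le_mul_of_nonneg_right ?_ (Real.rpow_nonneg hx0.le _)
      refine div_le_div_of_nonneg_right ?_ (by positivity)
      exact hA x (hXY.trans hx.1.le) hx.2
    linarith
  -- comparison of the weights
  have hH : -((1 - v) * (K + |C₀|)) ≤ ∫ x in Set.Ioc 1 Y,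
      ((H67M.cnt a x : ℝ) / x ^ 2 - (Nat.primeCounting ⌊x⌋₊ : ℝ) / x ^ 2) * (x ^ (-σ) - v) := by
    have hg : ∫ x in Set.Ioc 1 Y, (Set.Ioc 1 X).indicator
        (fun x : ℝ => -((1 - v) * ((Nat.primeCounting ⌊x⌋₊ : ℝ) / x ^ 2))) x =
        -((1 - v) * ∫ x in Set.Ioc 1 X, (Nat.primeCounting ⌊x⌋₊ : ℝ) / x ^ 2) := by
      rw [setIntegral_indicator measurableSet_Ioc,
        Set.inter_eq_right.2 (Set.Ioc_subset_Ioc_right hXY), MeasureTheory.integral_neg,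
        MeasureTheory.integral_const_mul]
    have hg2 : ∫ x in Set.Ioc 1 X, (Nat.primeCounting ⌊x⌋₊ : ℝ) / x ^ 2 ≤ K + |C₀| := by
      rw [(H67M.int_pi hX1).2, hK]
      exact (hC₀ X hX).trans (by linarith [le_abs_self C₀])
    have hint : IntegrableOn (fun x : ℝ => ((H67M.cnt a x : ℝ) / x ^ 2 -
        (Nat.primeCounting ⌊x⌋₊ : ℝ) / x ^ 2) * (x ^ (-σ) - v)) (Set.Ioc 1 Y) := by
      have h1 := (mul_w (hI1.sub hJ1) hσ).sub ((hI1.sub hJ1).mul_const v)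
      refine h1.congr (Filter.Eventually.of_forall fun x => ?_)
      simp only [Pi.sub_apply]
      ring
    have hint2 : IntegrableOn (fun x : ℝ => (Set.Ioc 1 X).indicator
        (fun x : ℝ => -((1 - v) * ((Nat.primeCounting ⌊x⌋₊ : ℝ) / x ^ 2))) x) (Set.Ioc 1 Y) :=
      ((hJ1.const_mul (1 - v)).neg).indicator measurableSet_Ioc
    calc -((1 - v) * (K + |C₀|))
        ≤ -((1 - v) * ∫ x in Set.Ioc 1 X, (Nat.primeCounting ⌊x⌋₊ : ℝ) / x ^ 2) := by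
          have := mul_le_mul_of_nonneg_left hg2 (sub_nonneg.2 hv3)
          linarith
      _ = ∫ x in Set.Ioc 1 Y, (Set.Ioc 1 X).indicator
        (fun x : ℝ => -((1 - v) * ((Nat.primeCounting ⌊x⌋₊ : ℝ) / x ^ 2))) x := hg.symm
      _ ≤ _ := by
          refine setIntegral_mono_on hint2 hint measurableSet_Ioc fun x hx => ?_
          have hx0 : 0 < x := by linarith [hx.1]
          have hw1 : x ^ (-σ) ≤ 1 :=
            Real.rpow_le_one_of_one_le_of_nonpos hx.1.le (by linarith)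
          have hw2 : v ≤ x ^ (-σ) := by
            rw [hv]
            exact Real.rpow_le_rpow_of_nonpos hx0 hx.2 (by linarith)
          have hp : 0 ≤ (Nat.primeCounting ⌊x⌋₊ : ℝ) / x ^ 2 := by positivity
          have hc : 0 ≤ (H67M.cnt a x : ℝ) / x ^ 2 := by positivity
          by_cases hxX : x ≤ X
          · rw [Set.indicator_of_mem (Set.mem_Ioc.2 ⟨hx.1, hxX⟩)]
            have h1 : 0 ≤ (H67M.cnt a x : ℝ) / x ^ 2 * (x ^ (-σ) - v) :=
              mul_nonneg hc (sub_nonneg.2 hw2)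
            have h2 : (Nat.primeCounting ⌊x⌋₊ : ℝ) / x ^ 2 * (x ^ (-σ) - v) ≤
                (Nat.primeCounting ⌊x⌋₊ : ℝ) / x ^ 2 * (1 - v) :=
              mul_le_mul_of_nonneg_left (by linarith) hp
            linarith
          · rw [Set.indicator_of_notMem (fun h => hxX h.2)]
            refine mul_nonneg ?_ (sub_nonneg.2 hw2)
            rw [← sub_div]
            refine div_nonneg (sub_nonneg.2 ?_) (by positivity)
            exact hA x (not_le.1 hxX).le (hx.2.trans hYZ)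
  have hH2 : (1 - v) * (K + |C₀|) ≤ 1 + |C₀| := by
    have h1 : (1 - v) * (K + |C₀|) ≤ 1 / K * (K + |C₀|) :=
      mul_le_mul_of_nonneg_right (by linarith) (by positivity)
    have h2 : 1 / K * (K + |C₀|) = 1 + |C₀| / K := by
      field_simp
    have h3 : |C₀| / K ≤ |C₀| := div_le_self (abs_nonneg _) hK1
    linarith
  -- conclusion
  obtain ⟨D, hD⟩ : ∃ D, D = ∫ x in Set.Ioc 1 Y,
    ((H67M.cnt a x : ℝ) / x ^ 2 - (Nat.primeCounting ⌊x⌋₊ : ℝ) / x ^ 2) := ⟨_, rfl⟩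
  have hsplit : ∫ x in Set.Ioc 1 Y,
      ((H67M.cnt a x : ℝ) / x ^ 2 - (Nat.primeCounting ⌊x⌋₊ : ℝ) / x ^ 2) * (x ^ (-σ) - v) =
      (∫ x in Set.Ioc 1 Y, (H67M.cnt a x : ℝ) / x ^ 2 * x ^ (-σ)) -
        (∫ x in Set.Ioc 1 Y, (Nat.primeCounting ⌊x⌋₊ : ℝ) / x ^ 2 * x ^ (-σ)) - D * v := by
    have e1 : ∫ x in Set.Ioc 1 Y, ((H67M.cnt a x : ℝ) / x ^ 2 * x ^ (-σ) -
        (Nat.primeCounting ⌊x⌋₊ : ℝ) / x ^ 2 * x ^ (-σ)) = _ := integral_sub hIw hJw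
    have hDint : IntegrableOn (fun x : ℝ => (H67M.cnt a x : ℝ) / x ^ 2 -
        (Nat.primeCounting ⌊x⌋₊ : ℝ) / x ^ 2) (Set.Ioc 1 Y) := hI1.sub hJ1
    have e2 : ∫ x in Set.Ioc 1 Y, ((H67M.cnt a x : ℝ) / x ^ 2 -
        (Nat.primeCounting ⌊x⌋₊ : ℝ) / x ^ 2) * v = D * v := by
      rw [MeasureTheory.integral_mul_const, hD]
    have hA1 : IntegrableOn (fun x : ℝ => (H67M.cnt a x : ℝ) / x ^ 2 * x ^ (-σ) -
        (Nat.primeCounting ⌊x⌋₊ : ℝ) / x ^ 2 * x ^ (-σ)) (Set.Ioc 1 Y) := hIw.sub hJw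
    have hA2 : IntegrableOn (fun x : ℝ => ((H67M.cnt a x : ℝ) / x ^ 2 -
        (Nat.primeCounting ⌊x⌋₊ : ℝ) / x ^ 2) * v) (Set.Ioc 1 Y) := hDint.mul_const v
    rw [← e1, ← e2, ← integral_sub hA1 hA2]
    refine integral_congr_ae (Filter.Eventually.of_forall fun x => ?_)
    simp only
    ring
  have hfin : ∫ t in (1 : ℝ)..Y, (({i : ℕ | a i ≤ t}.ncard : ℝ) - Nat.primeCounting ⌊t⌋₊) / t ^ 2 =
      D := by
    rw [hD, integral_of_le hY1]
    refine integral_congr_ae (Filter.Eventually.of_forall fun x => ?_)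
    simp only
    rw [sub_div]
    rfl
  have hDv : D * v ≤ E + (14 + |C₀|) := by
    rw [hsplit] at hH
    rw [← hN] at hG hG2
    linarith
  have hlK : 0 ≤ Real.log K := Real.log_nonneg hK1
  have hlK2 : Real.log K ≤ K := (Real.log_le_sub_one_of_pos hK0).trans (by linarith)
  have hB : 0 ≤ |C₀| := abs_nonneg _
  rw [hfin, ← hK, ← hL, ← hN, ← hE]
  by_cases hD0 : D ≤ 0
  · linarith
  · push Not at hD0
    have h1 : D ≤ 3 * (E + (14 + |C₀|)) := by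
      have h2 : (1 : ℝ) / 3 ≤ Real.exp (-1) := by
        rw [Real.exp_neg, one_div]
        exact inv_anti₀ he (by
          have := Real.exp_one_lt_d9
          linarith)
      have h3 : D * (1 / 3) ≤ D * v := mul_le_mul_of_nonneg_left (h2.trans hv4) hD0.le
      linarith
    have h2 : D / K ≤ 3 * (1 + (14 + |C₀|)) := by
      rw [div_le_iff₀ hK0]
      nlinarith
    have h3 : D * (1 - 1 / K) ≤ D * v := mul_le_mul_of_nonneg_left hv2 hD0.le
    have h4 : D * (1 - 1 / K) = D - D / K := by ring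
    linarith

/-- The excess on `[X, Y]` itself. -/
theorem sharp_interval : ∃ C : ℝ, ∀ a : ℕ → ℝ, 1 < a 0 → StrictMono a →
    N44b300f8.Erdos951Prop a → ∀ X Y Z : ℝ, 16 ≤ X → X ≤ Y → Y ≤ Z →
      (∀ t : ℝ, X ≤ t → t ≤ Z → (Nat.primeCounting ⌊t⌋₊ : ℝ) ≤ ({i : ℕ | a i ≤ t}.ncard : ℝ)) →
      ∫ t in X..Y, (({i : ℕ | a i ≤ t}.ncard : ℝ) - Nat.primeCounting ⌊t⌋₊) / t ^ 2 ≤
        Real.log (Real.log X) +
          max 0 (Real.log (Real.log (Real.log X) * Real.log Y / Real.log Z)) + C := by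
  obtain ⟨C, hC⟩ := sharp
  obtain ⟨C₀, hC₀⟩ := H67M.pi_upper
  refine ⟨C + C₀, fun a h0 hm hs X Y Z hX hXY hYZ hA => ?_⟩
  have hX1 : (1 : ℝ) ≤ X := by linarith
  have hY1 : (1 : ℝ) ≤ Y := hX1.trans hXY
  have h1 := hC a h0 hm hs X Y Z hX hXY hYZ hA
  have i1 := H67M.integrable_diff h0 hm hs hX1
  have i2 := H67M.integrable_diff h0 hm hs hY1
  have h2 := integral_add_adjacent_intervals i1 (i1.symm.trans i2)
  have h3 : -(Real.log (Real.log X) + C₀) ≤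
      ∫ x in (1 : ℝ)..X, ((H67M.cnt a x : ℝ) - Nat.primeCounting ⌊x⌋₊) / x ^ 2 := by
    rw [integral_of_le hX1]
    obtain ⟨hI1, -⟩ := H67M.int_cnt h0 hm hs X
    obtain ⟨hJ1, hJ2⟩ := H67M.int_pi hX1
    have h4 : (∫ x in Set.Ioc 1 X, ((H67M.cnt a x : ℝ) - Nat.primeCounting ⌊x⌋₊) / x ^ 2) =
        (∫ x in Set.Ioc 1 X, (H67M.cnt a x : ℝ) / x ^ 2) -
          ∫ x in Set.Ioc 1 X, (Nat.primeCounting ⌊x⌋₊ : ℝ) / x ^ 2 := by
      rw [← integral_sub hI1 hJ1]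
      refine integral_congr_ae (Filter.Eventually.of_forall fun x => ?_)
      simp only
      rw [sub_div]
    have h5 : 0 ≤ ∫ x in Set.Ioc 1 X, (H67M.cnt a x : ℝ) / x ^ 2 :=
      MeasureTheory.integral_nonneg fun x => by positivity
    have h6 := hC₀ X hX
    rw [h4, hJ2]
    linarith
  have h7 : ∫ t in (1 : ℝ)..Y, (({i : ℕ | a i ≤ t}.ncard : ℝ) - Nat.primeCounting ⌊t⌋₊) / t ^ 2 =
      ∫ x in (1 : ℝ)..Y, ((H67M.cnt a x : ℝ) - Nat.primeCounting ⌊x⌋₊) / x ^ 2 := rfl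
  have h8 : ∫ t in X..Y, (({i : ℕ | a i ≤ t}.ncard : ℝ) - Nat.primeCounting ⌊t⌋₊) / t ^ 2 =
      ∫ x in X..Y, ((H67M.cnt a x : ℝ) - Nat.primeCounting ⌊x⌋₊) / x ^ 2 := rfl
  rw [h7] at h1
  rw [h8]
  linarith

end Pool.Agent.H57E
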