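import Pool.Agent.H57E.Key

/-!
# The reciprocal sums of a 1-separated sequence and of the primes (MP_e2def7_nt)
-/

set_option autoImplicit false

namespace Pool.Agent.H57E

open Finset N44b300f8 Filter

private theorem inv_le_exp {x : ℝ} (h0 : 0 ≤ x) (h1 : x ≤ 1 / 2) :
    (1 - x)⁻¹ ≤ Real.exp (x + x ^ 2) := by
  have hpos : 0 < 1 - x := by linarith
  rw [inv_le_iff_one_le_mul₀ hpos]
  have h2 : 1 + (x + x ^ 2) + (x + x ^ 2) ^ 2 / 2 ≤ Real.exp (x + x ^ 2) :=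
    Real.quadratic_le_exp_of_nonneg (by positivity)
  have h3 : (1 + (x + x ^ 2) + (x + x ^ 2) ^ 2 / 2) * (1 - x) - 1 =
      x ^ 2 / 2 * (1 - x - x ^ 2 - x ^ 3) := by ring
  have h4 : x ^ 2 ≤ 1 / 4 := by nlinarith
  have h5 : x ^ 3 ≤ 1 / 8 := by nlinarith
  have h6 : 0 ≤ x ^ 2 / 2 * (1 - x - x ^ 2 - x ^ 3) := by
    apply mul_nonneg (by positivity)
    linarith
  have h7 := mul_le_mul_of_nonneg_right h2 hpos.le
  linarith

private noncomputable def pw (σ : ℝ) (hσ : 1 < σ) : ℕ →*₀ ℝ where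
  toFun n := (n : ℝ) ^ (-σ)
  map_zero' := by
    rw [Nat.cast_zero, Real.zero_rpow (by linarith)]
  map_one' := by simp
  map_mul' m n := by
    rw [Nat.cast_mul]
    exact Real.mul_rpow (Nat.cast_nonneg m) (Nat.cast_nonneg n)

theorem log_ze_le {σ : ℝ} (hσ : 1 < σ) :
    Real.log (ze σ) ≤ ∑' p : Nat.Primes, ((p : ℕ) : ℝ) ^ (-σ) + 2 := by
  have hs0 : Summable (fun n : ℕ => (n : ℝ) ^ (-σ)) := Real.summable_nat_rpow.2 (by linarith)
  have hsum : Summable (fun n => ‖pw σ hσ n‖) := by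
    refine hs0.congr fun n => ?_
    show (n : ℝ) ^ (-σ) = ‖(n : ℝ) ^ (-σ)‖
    rw [Real.norm_of_nonneg (Real.rpow_nonneg (Nat.cast_nonneg n) _)]
  have hprod := EulerProduct.eulerProduct_completely_multiplicative_hasProd hsum
  have hpsum : Summable (fun p : Nat.Primes => ((p : ℕ) : ℝ) ^ (-σ)) :=
    Nat.Primes.summable_rpow.2 (by linarith)
  have hinj : Function.Injective (fun p : Nat.Primes => (p : ℕ)) := Nat.Primes.coe_nat_injective
  have h2sum : Summable (fun n : ℕ => 1 / (n : ℝ) ^ 2) := hasSum_zeta_two.summable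
  have key : ze σ ≤ Real.exp (∑' p : Nat.Primes, ((p : ℕ) : ℝ) ^ (-σ) + 2) := by
    apply hasProd_le_of_prod_le hprod
    intro s
    have h1 : ∀ p ∈ s, (1 - pw σ hσ (p : ℕ))⁻¹ ≤
        Real.exp (((p : ℕ) : ℝ) ^ (-σ) + (((p : ℕ) : ℝ) ^ (-σ)) ^ 2) := by
      intro p _
      have hp2 : (2 : ℝ) ≤ ((p : ℕ) : ℝ) := by exact_mod_cast p.2.two_le
      apply inv_le_exp (Real.rpow_nonneg (Nat.cast_nonneg _) _)
      calc ((p : ℕ) : ℝ) ^ (-σ) ≤ ((p : ℕ) : ℝ) ^ (-1 : ℝ) :=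
            Real.rpow_le_rpow_of_exponent_le (by linarith) (by linarith)
        _ = (((p : ℕ) : ℝ))⁻¹ := Real.rpow_neg_one _
        _ ≤ (2 : ℝ)⁻¹ := inv_anti₀ (by norm_num) hp2
        _ = 1 / 2 := by norm_num
    have h1' : ∀ p ∈ s, 0 ≤ (1 - pw σ hσ (p : ℕ))⁻¹ := by
      intro p _
      have hp1 : (1 : ℝ) ≤ ((p : ℕ) : ℝ) := by exact_mod_cast p.2.one_lt.le
      apply inv_nonneg.2
      have : ((p : ℕ) : ℝ) ^ (-σ) ≤ 1 :=
        Real.rpow_le_one_of_one_le_of_nonpos hp1 (by linarith)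
      show 0 ≤ 1 - ((p : ℕ) : ℝ) ^ (-σ)
      linarith
    calc ∏ p ∈ s, (1 - pw σ hσ (p : ℕ))⁻¹
        ≤ ∏ p ∈ s, Real.exp (((p : ℕ) : ℝ) ^ (-σ) + (((p : ℕ) : ℝ) ^ (-σ)) ^ 2) :=
          Finset.prod_le_prod h1' h1
      _ = Real.exp (∑ p ∈ s, ((p : ℕ) : ℝ) ^ (-σ) + ∑ p ∈ s, (((p : ℕ) : ℝ) ^ (-σ)) ^ 2) := by
          rw [← Real.exp_sum, Finset.sum_add_distrib]
      _ ≤ Real.exp (∑' p : Nat.Primes, ((p : ℕ) : ℝ) ^ (-σ) + 2) := by
          apply Real.exp_le_exp.2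
          apply add_le_add
          · exact hpsum.sum_le_tsum s (fun p _ => Real.rpow_nonneg (Nat.cast_nonneg _) _)
          · calc ∑ p ∈ s, (((p : ℕ) : ℝ) ^ (-σ)) ^ 2 ≤ ∑ p ∈ s, 1 / ((p : ℕ) : ℝ) ^ 2 := by
                  apply Finset.sum_le_sum
                  intro p _
                  have hp1 : (1 : ℝ) ≤ ((p : ℕ) : ℝ) := by exact_mod_cast p.2.one_lt.le
                  have h3 : ((p : ℕ) : ℝ) ^ (-σ) ≤ (((p : ℕ) : ℝ))⁻¹ := by
                    rw [← Real.rpow_neg_one]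
                    exact Real.rpow_le_rpow_of_exponent_le hp1 (by linarith)
                  calc (((p : ℕ) : ℝ) ^ (-σ)) ^ 2 ≤ ((((p : ℕ) : ℝ))⁻¹) ^ 2 :=
                        pow_le_pow_left₀ (Real.rpow_nonneg (Nat.cast_nonneg _) _) h3 2
                    _ = 1 / ((p : ℕ) : ℝ) ^ 2 := by rw [inv_pow, one_div]
              _ ≤ ∑' p : Nat.Primes, 1 / ((p : ℕ) : ℝ) ^ 2 :=
                  (h2sum.comp_injective hinj).sum_le_tsum s (fun p _ => by positivity)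
              _ ≤ ∑' n : ℕ, 1 / (n : ℝ) ^ 2 :=
                  tsum_comp_le_tsum_of_inj h2sum (fun n => by positivity) hinj
              _ = Real.pi ^ 2 / 6 := hasSum_zeta_two.tsum_eq
              _ ≤ 2 := by
                  have := Real.pi_lt_d2
                  have := Real.pi_pos
                  nlinarith
  have hpos : 0 < ze σ := by
    have h1 := hs0.le_tsum 1 (fun n _ => Real.rpow_nonneg (Nat.cast_nonneg n) _)
    rw [Nat.cast_one, Real.one_rpow] at h1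
    exact lt_of_lt_of_le one_pos h1
  rw [Real.log_le_iff_le_exp hpos]
  exact key

/-- For every `1`-separated sequence, `∑ a_i ^ (-σ)` exceeds the corresponding sum over the primes
by at most `2`. -/
theorem summable_and_le {a : ℕ → ℝ} (h1 : ∀ i, 1 < a i) (hs : Erdos951Prop a) {σ : ℝ}
    (hσ : 1 < σ) : Summable (fun i => a i ^ (-σ)) ∧
      ∑' i, a i ^ (-σ) ≤ ∑' p : Nat.Primes, ((p : ℕ) : ℝ) ^ (-σ) + 2 := by
  have h2 : ∀ s : Finset ℕ, ∑ i ∈ s, a i ^ (-σ) ≤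
      ∑' p : Nat.Primes, ((p : ℕ) : ℝ) ^ (-σ) + 2 :=
    fun s => (sum_le_log h1 hs hσ s).trans (log_ze_le hσ)
  have h3 : ∀ i, 0 ≤ a i ^ (-σ) := fun i => Real.rpow_nonneg (by linarith [h1 i]) _
  have h4 : Summable (fun i => a i ^ (-σ)) := summable_of_sum_le h3 h2
  exact ⟨h4, h4.tsum_le_of_sum_le h2⟩

end Pool.Agent.H57E
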